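import Mathlib
import Pool.Agent.Helper601.HKa7

set_option autoImplicit false

/-!
Størmer's count for the numbers `x (3 x + 1)`, both signs of `x` together.
-/

namespace Pool.Agent.H977.CP

open Pool.Agent.Helper601.HK Finset

/-- all solutions of the Pell equation of which `y` has only prime divisors of `D` have the same `x` -/
theorem fund_eq (D : ℕ) : ∃ B : ℕ, ∀ x y : ℕ, x ^ 2 = D * y ^ 2 + 1 → 0 < y →
    (∀ p, p.Prime → p ∣ y → p ∣ D) → x = B := by
  by_cases hsq : IsSquare D
  · refine ⟨1, ?_⟩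
    intro x y hxy hy _
    obtain ⟨e, rfl⟩ := hsq
    by_contra hx
    have hx : 1 < x := by
      rcases Nat.lt_trichotomy x 1 with h | h | h
      · exfalso
        have : x = 0 := by omega
        rw [this] at hxy
        simp at hxy
      · exact absurd h hx
      · exact h
    have h1 : x ^ 2 = (e * y) ^ 2 + 1 := by rw [hxy]; ring
    have h2 : e * y < x := by
      by_contra hcon
      push Not at hcon
      have := Nat.pow_le_pow_left hcon 2
      omega
    have h3 : (e * y + 1) ^ 2 ≤ x ^ 2 := Nat.pow_le_pow_left h2 2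
    have h4 : (e * y + 1) ^ 2 = (e * y) ^ 2 + 2 * (e * y) + 1 := by ring
    have h5 : e * y = 0 := by omega
    rw [h5] at h1
    have h6 : 2 ^ 2 ≤ x ^ 2 := Nat.pow_le_pow_left hx 2
    omega
  · have hD0 : 0 < D := by
      rcases Nat.eq_zero_or_pos D with h0 | h0
      · exact absurd (by rw [h0]; exact ⟨0, rfl⟩) hsq
      · exact h0
    have hDZ : (0:ℤ) < (D:ℤ) := by exact_mod_cast hD0
    have hsqZ : ¬ IsSquare (D:ℤ) := by
      rw [Int.isSquare_natCast_iff]
      exact hsq
    obtain ⟨a₁, ha₁⟩ := Pell.IsFundamental.exists_of_not_isSquare hDZ hsqZ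
    refine ⟨a₁.x.toNat, ?_⟩
    intro x y hxy hy hp
    have hprop : (x:ℤ) ^ 2 - D * (y:ℤ) ^ 2 = 1 := by
      have : ((x:ℤ)) ^ 2 = D * (y:ℤ) ^ 2 + 1 := by exact_mod_cast hxy
      linarith
    set a : Pell.Solution₁ (D:ℤ) := Pell.Solution₁.mk x y hprop with ha
    have hax : a.x = x := Pell.Solution₁.x_mk _ _ _
    have hay : a.y = y := Pell.Solution₁.y_mk _ _ _
    have hx0 : 0 < x := by
      by_contra hcon
      have : x = 0 := by omega
      rw [this] at hxy
      simp at hxy
    obtain ⟨n, hn⟩ := ha₁.eq_pow_of_nonneg (a := a) (by rw [hax]; exact_mod_cast hx0)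
      (by rw [hay]; positivity)
    rcases Nat.lt_or_ge n 2 with hn2 | hn2
    · interval_cases n
      · exfalso
        rw [pow_zero] at hn
        have : a.y = 0 := by rw [hn]; exact Pell.Solution₁.y_one
        rw [hay] at this
        have : y = 0 := by exact_mod_cast this
        omega
      · rw [pow_one] at hn
        rw [← hn, hax]
        simp
    · exfalso
      have hq : n.minFac.Prime := Nat.minFac_prime (by omega)
      obtain ⟨m, hm⟩ := Nat.minFac_dvd n
      set q := n.minFac with hqdef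
      have hm0 : 0 < m := by
        rcases Nat.eq_zero_or_pos m with h0 | h0
        · rw [h0, mul_zero] at hm
          omega
        · exact h0
      set b := a₁ ^ m with hb
      have hab : a = b ^ q := by
        rw [hn, hb, ← pow_mul, mul_comm m q, ← hm]
      have ha1y : 0 < a₁.y := ha₁.2.1
      have hbx : 0 < b.x := Pell.Solution₁.x_pow_pos ha₁.x_pos m
      have hby : 0 < b.y := by
        obtain ⟨k, hk⟩ : ∃ k, m = k + 1 := ⟨m - 1, by omega⟩
        rw [hb, hk]
        exact Pell.Solution₁.y_pow_succ_pos ha₁.x_pos ha1y k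
      obtain ⟨u, hu⟩ := Int.eq_ofNat_of_zero_le hbx.le
      obtain ⟨v, hv⟩ := Int.eq_ofNat_of_zero_le hby.le
      have hv0 : 0 < v := by
        rw [hv] at hby
        exact_mod_cast hby
      have hpb := b.prop
      rw [hu, hv] at hpb
      have huw : u ^ 2 = D * v ^ 2 + 1 := by
        have : ((u:ℤ)) ^ 2 = D * (v:ℤ) ^ 2 + 1 := by linarith
        exact_mod_cast this
      have hu2 : 2 ≤ u := by
        by_contra hcon
        have h1 : u = 0 ∨ u = 1 := by omega
        have h2 : 0 < D * v ^ 2 := by positivity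
        rcases h1 with h1 | h1
        · rw [h1] at huw
          simp at huw
        · rw [h1] at huw
          simp at huw
          omega
      have hpow := (pell_pow b u v (D * v ^ 2) hu hv (by push_cast; ring) q).2
      rw [← hab, hay] at hpow
      have hyT : y = v * (PQ u (D * v ^ 2) q).2 := by exact_mod_cast hpow
      refine key q u (D * v ^ 2) hq hu2 huw ?_
      intro p hpp hpT
      have h1 : p ∣ y := by
        rw [hyT]
        exact Dvd.dvd.mul_left hpT _
      exact Dvd.dvd.mul_right (hp p hpp h1) _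

/-- the shape of the cubefree numbers divisible by `2` and exactly once by `3` -/
theorem code (S : Finset ℕ) (hS : ∀ q ∈ S, 5 ≤ q) (D : ℕ) (hD : 0 < D) (h3 : 3 ∣ D)
    (h9 : ¬ 9 ∣ D) (h2 : 2 ∣ D) (hcube : ∀ p, p.Prime → ¬ p ^ 3 ∣ D)
    (hDS : ∀ q, q.Prime → q ∣ D → q = 2 ∨ q = 3 ∨ q ∈ S) :
    ∃ e : Fin 2 × (S → Fin 3), D = 2 ^ (e.1.1 + 1) * (3 * ∏ p : S, (p : ℕ) ^ (e.2 p).1) := by
  have hsub : D.factorization.support ⊆ insert 2 (insert 3 S) := by
    intro q hq
    rw [Nat.support_factorization, Nat.mem_primeFactors] at hq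
    rw [Finset.mem_insert, Finset.mem_insert]
    exact hDS q hq.1 hq.2.1
  have h1 : D = ∏ p ∈ insert 2 (insert 3 S), p ^ D.factorization p := by
    conv_lhs => rw [← Nat.prod_factorization_pow_eq_self hD.ne']
    exact Finsupp.prod_of_support_subset _ hsub _ (fun i _ => pow_zero i)
  have n2 : 2 ∉ insert 3 S := by
    rw [Finset.mem_insert]
    rintro (h | h)
    · omega
    · have := hS 2 h; omega
  have n3 : 3 ∉ S := fun h => by have := hS 3 h; omega
  rw [Finset.prod_insert n2, Finset.prod_insert n3] at h1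
  have v3 : D.factorization 3 = 1 := by
    have a1 : 1 ≤ D.factorization 3 :=
      (Nat.prime_three.dvd_iff_one_le_factorization hD.ne').1 h3
    have a2 : ¬ 2 ≤ D.factorization 3 := by
      intro h
      apply h9
      have := (Nat.prime_three.pow_dvd_iff_le_factorization hD.ne').2 h
      norm_num at this
      exact this
    omega
  have v2 : 1 ≤ D.factorization 2 := (Nat.prime_two.dvd_iff_one_le_factorization hD.ne').1 h2
  have vp : ∀ p, D.factorization p < 3 := by
    intro p
    by_cases hp : p.Prime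
    · by_contra h
      push Not at h
      exact hcube p hp ((hp.pow_dvd_iff_le_factorization hD.ne').2 h)
    · rw [Nat.factorization_eq_zero_of_not_prime _ hp]; norm_num
  have v2' := vp 2
  refine ⟨(⟨D.factorization 2 - 1, by omega⟩, fun p => ⟨D.factorization p, vp _⟩), ?_⟩
  have h4 : ∏ p ∈ S, p ^ D.factorization p = ∏ p : S, (p : ℕ) ^ D.factorization p := by
    rw [← Finset.prod_coe_sort]
  rw [v3, pow_one, h4] at h1
  have h5 : D.factorization 2 - 1 + 1 = D.factorization 2 := by omega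
  simp only [h5]
  exact h1

/-- odd, prime to `3`, and `x (3 x + 1)` has no prime divisors `≥ 5` outside of `S` -/
def Good (S : Finset ℕ) (x : ℤ) : Prop :=
  x % 2 = 1 ∧ x % 3 ≠ 0 ∧ ∀ q : ℕ, q.Prime → 5 ≤ q → (q : ℤ) ∣ x * (3 * x + 1) → q ∈ S

/-- the relation of a good number to the parameter of the Pell equation -/
def Rel (x : ℤ) (D : ℕ) : Prop :=
  ∃ y : ℕ, (6 * x + 1).natAbs ^ 2 = D * y ^ 2 + 1 ∧ 0 < y ∧ ∀ p, p.Prime → p ∣ y → p ∣ D

theorem rel_inj {x x' : ℤ} {D : ℕ} (h : Rel x D) (h' : Rel x' D) : x = x' := by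
  obtain ⟨B, hB⟩ := fund_eq D
  obtain ⟨y, h1, h2, h3⟩ := h
  obtain ⟨y', h1', h2', h3'⟩ := h'
  have e1 := hB _ y h1 h2 h3
  have e2 := hB _ y' h1' h2' h3'
  omega

theorem good_rel {S : Finset ℕ} (hS : ∀ q ∈ S, 5 ≤ q) {x : ℤ} (hx : Good S x) :
    ∃ e : Fin 2 × (S → Fin 3), Rel x (2 ^ (e.1.1 + 1) * (3 * ∏ p : S, (p : ℕ) ^ (e.2 p).1)) := by
  obtain ⟨ho, h3, hq⟩ := hx
  have hpos : 0 < x * (3 * x + 1) := by
    rcases lt_or_ge x 0 with h | h
    · exact mul_pos_of_neg_of_neg h (by omega)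
    · exact mul_pos (by omega) (by omega)
  obtain ⟨n, hn⟩ := Int.eq_ofNat_of_zero_le hpos.le
  have hn0 : 0 < n := by rw [hn] at hpos; exact_mod_cast hpos
  have hsq : (6 * x + 1).natAbs ^ 2 = 12 * n + 1 := by
    have : (((6 * x + 1).natAbs ^ 2 : ℕ) : ℤ) = ((12 * n + 1 : ℕ) : ℤ) := by
      push_cast
      rw [sq_abs, ← hn]; ring
    exact_mod_cast this
  obtain ⟨D, y, e1, e2, e3, e4, e5⟩ := decomp (12 * n) 1 (by omega) one_pos (by
    intro p hp h
    exact absurd (Nat.dvd_one.1 h) hp.one_lt.ne')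
  rw [one_pow, mul_one] at e1
  have hn3 : ¬ 3 ∣ n := by
    intro h
    have h' : (3 : ℤ) ∣ x * (3 * x + 1) := by rw [hn]; exact_mod_cast h
    rcases (Int.prime_three.dvd_mul).1 h' with h4 | h4 <;> omega
  have hy3 : ¬ 3 ∣ y := by
    intro h
    have h4 : 9 ∣ D * y ^ 2 := by
      obtain ⟨c, rfl⟩ := h
      exact ⟨D * c ^ 2, by ring⟩
    rw [e1] at h4
    omega
  have hD3 : 3 ∣ D := by
    have h4 : 3 ∣ D * y ^ 2 := by rw [e1]; exact ⟨4 * n, by ring⟩
    rcases (Nat.prime_three.dvd_mul).1 h4 with h5 | h5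
    · exact h5
    · exact absurd (Nat.prime_three.dvd_of_dvd_pow h5) hy3
  have hD9 : ¬ 9 ∣ D := by
    intro h
    have h4 : 9 ∣ D * y ^ 2 := Dvd.dvd.mul_right h _
    rw [e1] at h4
    omega
  have hD2 : 2 ∣ D := by
    have h4 : 2 ∣ D * y ^ 2 := by rw [e1]; exact ⟨6 * n, by ring⟩
    rcases (Nat.prime_two.dvd_mul).1 h4 with h5 | h5
    · exact h5
    · exact e4 2 Nat.prime_two (Nat.prime_two.dvd_of_dvd_pow h5)
  obtain ⟨e, he⟩ := code S hS D e2 hD3 hD9 hD2 e5 (by
    intro q hqp hqD
    by_cases h5 : 5 ≤ q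
    · right; right
      apply hq q hqp h5
      have h6 : q ∣ 12 * n := by rw [← e1]; exact Dvd.dvd.mul_right hqD _
      have h7 : q ∣ n := by
        rcases (hqp.dvd_mul).1 h6 with h8 | h8
        · exfalso
          have h9 : q ≤ 12 := Nat.le_of_dvd (by norm_num) h8
          interval_cases q <;> revert h8 hqp <;> decide
        · exact h8
      rw [hn]
      exact_mod_cast h7
    · have := hqp.two_le
      have h4 : q ≠ 4 := by rintro rfl; exact absurd hqp (by decide)
      omega)
  refine ⟨e, y, ?_, e3, ?_⟩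
  · rw [← he, e1, hsq]
  · intro p hp hpy
    rw [← he]
    exact e4 p hp hpy

theorem good_count (S : Finset ℕ) (F : Finset ℤ) (hF : ∀ x ∈ F, Good S x) :
    F.card ≤ 2 * 3 ^ S.card := by
  classical
  set S' := S.filter (fun q => 5 ≤ q) with hS'
  have h1 : ∀ x ∈ F, Good S' x := by
    intro x hx
    obtain ⟨a, b, c⟩ := hF x hx
    refine ⟨a, b, fun q hq h5 hd => ?_⟩
    rw [hS', Finset.mem_filter]
    exact ⟨c q hq h5 hd, h5⟩
  have hS5 : ∀ q ∈ S', 5 ≤ q := fun q hq => (Finset.mem_filter.1 hq).2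
  have h2 : ∀ x : F, ∃ e : Fin 2 × (S' → Fin 3),
      Rel x (2 ^ (e.1.1 + 1) * (3 * ∏ p : S', (p : ℕ) ^ (e.2 p).1)) :=
    fun x => good_rel hS5 (h1 x x.2)
  choose f hf using h2
  have hinj : Function.Injective f := by
    intro x x' h
    have a := hf x
    rw [h] at a
    exact Subtype.ext (rel_inj a (hf x'))
  have h3 := Fintype.card_le_of_injective f hinj
  rw [Fintype.card_coe] at h3
  simp only [Fintype.card_prod, Fintype.card_fin, Fintype.card_fun, Fintype.card_coe] at h3
  refine h3.trans ?_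
  apply Nat.mul_le_mul_left
  apply Nat.pow_le_pow_right (by norm_num)
  exact Finset.card_filter_le _ _

end Pool.Agent.H977.CP
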