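import Mathlib

set_option autoImplicit false

/-!
Distinct primes dividing the odd terms of short windows of trajectories.
-/

namespace Pool.Agent.H977.CP

open Finset

/-- The 3x+1 map on the integers. -/
def T (x : ℤ) : ℤ := if x % 2 = 0 then x / 2 else (3 * x + 1) / 2

theorem T_even {x : ℤ} (h : x % 2 = 0) : 2 * T x = x := by
  unfold T; rw [if_pos h]; omega

theorem T_odd {x : ℤ} (h : x % 2 = 1) : 2 * T x = 3 * x + 1 := by
  unfold T; rw [if_neg (by omega)]; omega

/-- the times `< n` at which the trajectory is odd -/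
def oddT (x : ℤ) (n : ℕ) : Finset ℕ := (range n).filter (fun i => T^[i] x % 2 = 1)

theorem oddT_succ (x : ℤ) (n : ℕ) : oddT x (n + 1) =
    if T^[n] x % 2 = 1 then insert n (oddT x n) else oddT x n := by
  unfold oddT
  rw [Finset.range_add_one, Finset.filter_insert]

theorem form (y : ℤ) (n : ℕ) : ∃ b : ℤ,
    2 ^ n * T^[n] y = 3 ^ (oddT y n).card * y + b ∧ 0 ≤ b ∧ b ≤ 3 ^ n - 2 ^ n ∧
      (y % 2 = 1 → 1 ≤ n → 1 ≤ b) := by
  induction n with
  | zero => exact ⟨0, by simp [oddT], le_rfl, by norm_num, fun _ h => absurd h (by norm_num)⟩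
  | succ n ih =>
    obtain ⟨b, h1, h2, h3, h4⟩ := ih
    have hp2 : (0 : ℤ) < 2 ^ n := by positivity
    have hp3 : (0 : ℤ) < 3 ^ n := by positivity
    rw [Function.iterate_succ_apply']
    have hnot : n ∉ oddT y n := by
      unfold oddT; rw [Finset.mem_filter, Finset.mem_range]; omega
    rcases Int.emod_two_eq_zero_or_one (T^[n] y) with he | ho
    · refine ⟨b, ?_, h2, ?_, ?_⟩
      · rw [oddT_succ, if_neg (by omega), ← h1, pow_succ]
        have := T_even he
        linear_combination (2 : ℤ) ^ n * this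
      · rw [pow_succ, pow_succ]; linarith
      · intro hy _
        rcases Nat.eq_zero_or_pos n with h0 | h0
        · subst h0
          simp only [Function.iterate_zero, id] at he
          omega
        · exact h4 hy h0
    · refine ⟨3 * b + 2 ^ n, ?_, by linarith, ?_, ?_⟩
      · rw [oddT_succ, if_pos ho, Finset.card_insert_of_notMem hnot, pow_succ, pow_succ]
        have := T_odd ho
        linear_combination (2 : ℤ) ^ n * this + 3 * h1
      · rw [pow_succ, pow_succ]; linarith
      · intro _ _
        linarith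

theorem gcd_le {y : ℤ} (hy : y % 2 = 1) {n : ℕ} (hn : 1 ≤ n) :
    Nat.gcd y.natAbs (T^[n] y).natAbs ≤ 3 ^ n := by
  obtain ⟨b, h1, h2, h3, h4⟩ := form y n
  have hb := h4 hy hn
  set g := Nat.gcd y.natAbs (T^[n] y).natAbs with hg
  have d1 : (g : ℤ) ∣ y := by
    rw [Int.natCast_dvd]; exact Nat.gcd_dvd_left _ _
  have d2 : (g : ℤ) ∣ T^[n] y := by
    rw [Int.natCast_dvd]; exact Nat.gcd_dvd_right _ _
  have d3 : (g : ℤ) ∣ b := by
    have : b = 2 ^ n * T^[n] y - 3 ^ (oddT y n).card * y := by linarith
    rw [this]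
    exact dvd_sub (Dvd.dvd.mul_left d2 _) (Dvd.dvd.mul_left d1 _)
  have h5 : (g : ℤ) ≤ b := Int.le_of_dvd (by linarith) d3
  have h6 : (0 : ℤ) < 2 ^ n := by positivity
  have h7 : (g : ℤ) ≤ 3 ^ n := by linarith
  exact_mod_cast h7

/-- numbers which are large compared to their greatest common divisors have distinct prime divisors -/
theorem hall (I : Finset ℕ) (A : ℕ → ℕ) (B : ℕ) (hA : ∀ i ∈ I, B < A i)
    (hB : ∀ j ∈ I, ∏ i ∈ I.erase j, Nat.gcd (A i) (A j) ≤ B) :
    ∃ f : ℕ → ℕ, (∀ i ∈ I, (f i).Prime ∧ f i ∣ A i) ∧ Set.InjOn f I := by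
  classical
  have hpos : ∀ i ∈ I, A i ≠ 0 := fun i hi => by have := hA i hi; omega
  have hall := (Finset.all_card_le_biUnion_card_iff_exists_injective
    (fun i : I => (A i).primeFactors)).1 (by
    intro s
    by_contra hcon
    push Not at hcon
    set Q := s.biUnion (fun i : I => (A i).primeFactors) with hQ
    have hs : s.Nonempty := by
      rw [← Finset.card_pos]; omega
    have hmax : ∀ q : ℕ, ∃ i ∈ s, ∀ i' ∈ s, (A i').factorization q ≤ (A i).factorization q :=
      fun q => Finset.exists_max_image s (fun i : I => (A i).factorization q) hs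
    choose g hg1 hg2 using hmax
    have hcard : (Q.image g).card < s.card := lt_of_le_of_lt Finset.card_image_le hcon
    obtain ⟨j, hj, hjn⟩ := Finset.exists_mem_notMem_of_card_lt_card hcard
    have hprod0 : ∀ t ⊆ (I.erase (j : ℕ)), ∏ i ∈ t, Nat.gcd (A i) (A j) ≠ 0 := by
      intro t _
      rw [Finset.prod_ne_zero_iff]
      intro i _ h0
      exact hpos j j.2 (Nat.eq_zero_of_gcd_eq_zero_right h0)
    have hdvd : A j ∣ ∏ i ∈ I.erase (j : ℕ), Nat.gcd (A i) (A j) := by
      rw [← Nat.factorization_prime_le_iff_dvd (hpos j j.2) (hprod0 _ subset_rfl)]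
      intro q hq
      rw [← hq.pow_dvd_iff_le_factorization (hprod0 _ subset_rfl)]
      by_cases hqj : q ∣ A j
      · have hqQ : q ∈ Q := by
          rw [hQ, Finset.mem_biUnion]
          exact ⟨j, hj, Nat.mem_primeFactors.2 ⟨hq, hqj, hpos j j.2⟩⟩
        have hne : g q ≠ j := by
          intro h
          exact hjn (Finset.mem_image.2 ⟨q, hqQ, h⟩)
        have hmem : ((g q : I) : ℕ) ∈ I.erase (j : ℕ) := by
          rw [Finset.mem_erase]
          exact ⟨fun h => hne (Subtype.ext h), (g q).2⟩
        refine Dvd.dvd.trans ?_ (Finset.dvd_prod_of_mem _ hmem)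
        apply Nat.dvd_gcd
        · rw [hq.pow_dvd_iff_le_factorization (hpos _ (g q).2)]
          exact hg2 q j hj
        · exact Nat.ordProj_dvd _ _
      · rw [Nat.factorization_eq_zero_of_not_dvd hqj, pow_zero]
        exact one_dvd _
    have h1 := Nat.le_of_dvd (Nat.pos_of_ne_zero (hprod0 _ subset_rfl)) hdvd
    have h2 := hB j j.2
    have h3 := hA j j.2
    omega)
  obtain ⟨f, hf1, hf2⟩ := hall
  refine ⟨fun i => if h : i ∈ I then f ⟨i, h⟩ else 0, ?_, ?_⟩
  · intro i hi
    simp only [hi, dif_pos]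
    have := hf2 ⟨i, hi⟩
    rw [Nat.mem_primeFactors] at this
    exact ⟨this.1, this.2.1⟩
  · intro i hi i' hi' h
    simp only [Finset.mem_coe] at hi hi'
    simp only [hi, hi', dif_pos] at h
    have := hf1 h
    exact congrArg Subtype.val this

theorem sum_dist (j : ℕ) : ∀ L : ℕ, j ≤ L → ∑ i ∈ range (L + 1), Nat.dist i j ≤ L * (L + 1) / 2 := by
  intro L
  induction L with
  | zero =>
    intro h
    have : j = 0 := by omega
    subst this
    simp [Nat.dist]
  | succ L ih =>
    intro h
    rcases Nat.lt_or_ge L j with h1 | h1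
    · have hj : j = L + 1 := by omega
      subst hj
      have e : ∀ i ∈ range (L + 1 + 1), Nat.dist i (L + 1) = (L + 1 + 1) - 1 - i := by
        intro i hi
        rw [Finset.mem_range] at hi
        unfold Nat.dist; omega
      rw [Finset.sum_congr rfl e, Finset.sum_range_reflect (fun i => i) (L + 1 + 1),
        Finset.sum_range_id]
      apply le_of_eq
      congr 1
      rw [Nat.add_sub_cancel, mul_comm]
    · rw [Finset.sum_range_succ]
      have h2 := ih h1
      have h3 : Nat.dist (L + 1) j ≤ L + 1 := by unfold Nat.dist; omega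
      have h4 : (L + 1) * (L + 1 + 1) / 2 = L * (L + 1) / 2 + (L + 1) := by
        have : (L + 1) * (L + 1 + 1) = L * (L + 1) + (L + 1) * 2 := by ring
        rw [this, Nat.add_mul_div_right _ _ (by norm_num)]
      rw [h4]
      omega

/-- **Distinct primes in short windows.** -/
theorem window (x : ℤ) (L : ℕ)
    (h : ∀ t ≤ L, T^[t] x % 2 = 1 → 3 ^ (L * (L + 1) / 2) < (T^[t] x).natAbs) :
    ∃ f : ℕ → ℕ, (∀ t ≤ L, T^[t] x % 2 = 1 → (f t).Prime ∧ (f t : ℤ) ∣ T^[t] x) ∧
      ∀ s ≤ L, ∀ t ≤ L, T^[s] x % 2 = 1 → T^[t] x % 2 = 1 → f s = f t → s = t := by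
  obtain ⟨f, h1, h2⟩ := hall (oddT x (L + 1)) (fun t => (T^[t] x).natAbs) (3 ^ (L * (L + 1) / 2))
    (by
      intro t ht
      unfold oddT at ht
      rw [Finset.mem_filter, Finset.mem_range] at ht
      exact h t (by omega) ht.2)
    (by
      intro j hj
      have hgcd : ∀ i ∈ (oddT x (L + 1)).erase j,
          Nat.gcd (T^[i] x).natAbs (T^[j] x).natAbs ≤ 3 ^ Nat.dist i j := by
        intro i hi
        rw [Finset.mem_erase] at hi
        obtain ⟨hij, hi⟩ := hi
        unfold oddT at hi hj
        rw [Finset.mem_filter, Finset.mem_range] at hi hj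
        rcases Nat.lt_or_gt_of_ne hij with hlt | hlt
        · obtain ⟨d, rfl⟩ := Nat.exists_eq_add_of_lt hlt
          have e : Nat.dist i (i + d + 1) = d + 1 := by unfold Nat.dist; omega
          rw [e, show i + d + 1 = (d + 1) + i by ring, Function.iterate_add_apply]
          exact gcd_le hi.2 (by omega)
        · obtain ⟨d, rfl⟩ := Nat.exists_eq_add_of_lt hlt
          have e : Nat.dist (j + d + 1) j = d + 1 := by unfold Nat.dist; omega
          rw [e, Nat.gcd_comm, show j + d + 1 = (d + 1) + j by ring, Function.iterate_add_apply]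
          exact gcd_le hj.2 (by omega)
      have hjL : j ≤ L := by
        unfold oddT at hj
        rw [Finset.mem_filter, Finset.mem_range] at hj
        omega
      calc ∏ i ∈ (oddT x (L + 1)).erase j, Nat.gcd (T^[i] x).natAbs (T^[j] x).natAbs
          ≤ ∏ i ∈ (oddT x (L + 1)).erase j, 3 ^ Nat.dist i j :=
            Finset.prod_le_prod' hgcd
        _ = 3 ^ (∑ i ∈ (oddT x (L + 1)).erase j, Nat.dist i j) := by
            rw [Finset.prod_pow_eq_pow_sum]
        _ ≤ 3 ^ (L * (L + 1) / 2) := by
            apply Nat.pow_le_pow_right (by norm_num)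
            refine le_trans ?_ (sum_dist j L hjL)
            apply Finset.sum_le_sum_of_subset
            intro i hi
            have := Finset.mem_of_mem_erase hi
            unfold oddT at this
            exact (Finset.mem_filter.1 this).1)
  refine ⟨f, ?_, ?_⟩
  · intro t ht ho
    have := h1 t (by unfold oddT; rw [Finset.mem_filter, Finset.mem_range]; exact ⟨by omega, ho⟩)
    refine ⟨this.1, ?_⟩
    rw [Int.natCast_dvd]
    exact this.2
  · intro s hs t ht hso hto hst
    apply h2 _ _ hst
    · rw [Finset.mem_coe]; unfold oddT; rw [Finset.mem_filter, Finset.mem_range]; exact ⟨by omega, hso⟩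
    · rw [Finset.mem_coe]; unfold oddT; rw [Finset.mem_filter, Finset.mem_range]; exact ⟨by omega, hto⟩

end Pool.Agent.H977.CP
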