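import Mathlib
import Pool.Agent.H977.CP.Count
import Pool.Agent.H977.CP.Windows
import Pool.Agent.H547R3.Cyc
import Pool.Agent.R343.LZ2

set_option autoImplicit false

/-!
Finite unions of cycles and their prime divisors.
-/

namespace Pool.Agent.H977.CP

open Finset

theorem two_cases (x : ℤ) : x % 2 = 0 ∨ x % 2 = 1 := Int.emod_two_eq_zero_or_one x

section
variable {Z : Finset ℤ} (hZ : Z.image T = Z)

include hZ

theorem closed_T {z : ℤ} (hz : z ∈ Z) : T z ∈ Z := by
  rw [← hZ]; exact Finset.mem_image_of_mem _ hz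

theorem closed_it {z : ℤ} (hz : z ∈ Z) (n : ℕ) : T^[n] z ∈ Z := by
  induction n with
  | zero => exact hz
  | succ n ih => rw [Function.iterate_succ_apply']; exact closed_T hZ ih

theorem inj_T : Set.InjOn T Z := by
  rw [← Finset.card_image_iff, hZ]

theorem pred {z : ℤ} (hz : z ∈ Z) (n : ℕ) : ∃ y ∈ Z, T^[n] y = z := by
  induction n with
  | zero => exact ⟨z, hz, rfl⟩
  | succ n ih =>
    obtain ⟨y, hy, hyz⟩ := ih
    rw [← hZ, Finset.mem_image] at hy
    obtain ⟨w, hw, hwy⟩ := hy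
    exact ⟨w, hw, by rw [Function.iterate_succ_apply, hwy, hyz]⟩

theorem no3 (h0 : (0 : ℤ) ∉ Z) {z : ℤ} (hz : z ∈ Z) : z % 3 ≠ 0 := by
  intro h3
  obtain ⟨m, hm, hmax⟩ := Finset.exists_max_image (Z.filter (fun z => z % 3 = 0)) Int.natAbs
    ⟨z, Finset.mem_filter.2 ⟨hz, h3⟩⟩
  rw [Finset.mem_filter] at hm
  obtain ⟨w, hw, hwm⟩ := pred hZ hm.1 1
  rw [Function.iterate_one] at hwm
  have hm0 : m ≠ 0 := fun h => h0 (h ▸ hm.1)
  rcases two_cases w with he | ho
  · have h1 := T_even he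
    rw [hwm] at h1
    have h2 := hmax w (Finset.mem_filter.2 ⟨hw, by omega⟩)
    omega
  · have h1 := T_odd ho
    rw [hwm] at h1
    omega

theorem card_even_le (h0 : (0 : ℤ) ∉ Z) :
    (Z.filter (fun z => ¬ z % 2 = 1)).card ≤ (Z.filter (fun z => z % 2 = 1)).card := by
  have h1 : ∏ z ∈ Z, (T z).natAbs = ∏ z ∈ Z, z.natAbs := by
    conv_rhs => rw [← hZ]
    rw [Finset.prod_image (inj_T hZ)]
  have h2 : ∏ z ∈ Z, ((T z).natAbs * (if z % 2 = 1 then 1 else 2)) ≤
      ∏ z ∈ Z, (z.natAbs * (if z % 2 = 1 then 2 else 1)) := by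
    apply Finset.prod_le_prod'
    intro z hz
    have hz0 : z ≠ 0 := fun h => h0 (h ▸ hz)
    by_cases ho : z % 2 = 1
    · rw [if_pos ho, if_pos ho]
      have := T_odd ho
      omega
    · rw [if_neg ho, if_neg ho]
      have := T_even (x := z) (by omega)
      omega
  rw [Finset.prod_mul_distrib, Finset.prod_mul_distrib, h1] at h2
  have h3 : 0 < ∏ z ∈ Z, z.natAbs := by
    apply Finset.prod_pos
    intro z hz
    have hz0 : z ≠ 0 := fun h => h0 (h ▸ hz)
    omega
  have h4 := Nat.le_of_mul_le_mul_left h2 h3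
  rw [Finset.prod_ite, Finset.prod_ite] at h4
  simp only [Finset.prod_const_one, Finset.prod_const, one_mul, mul_one] at h4
  exact (Nat.pow_le_pow_iff_right (by norm_num)).1 h4

theorem good_of {S : Finset ℕ} (h0 : (0 : ℤ) ∉ Z)
    (hS : ∀ z ∈ Z, ∀ q : ℕ, q.Prime → 5 ≤ q → (q : ℤ) ∣ z → q ∈ S) {z : ℤ} (hz : z ∈ Z)
    (ho : z % 2 = 1) : Good S z := by
  refine ⟨ho, no3 hZ h0 hz, ?_⟩
  intro q hq h5 hd
  rcases (Nat.prime_iff_prime_int.1 hq).dvd_mul.1 hd with h | h
  · exact hS z hz q hq h5 h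
  · rw [← T_odd ho] at h
    rcases (Nat.prime_iff_prime_int.1 hq).dvd_mul.1 h with h' | h'
    · exfalso
      have := Int.le_of_dvd (by norm_num) h'
      omega
    · exact hS _ (closed_T hZ hz) q hq h5 h'

theorem union_card {S : Finset ℕ} (h0 : (0 : ℤ) ∉ Z)
    (hS : ∀ z ∈ Z, ∀ q : ℕ, q.Prime → 5 ≤ q → (q : ℤ) ∣ z → q ∈ S) : Z.card ≤ 4 * 3 ^ S.card := by
  have h1 := card_even_le hZ h0
  have h2 := Finset.card_filter_add_card_filter_not (s := Z) (fun z => z % 2 = 1)
  have h3 := good_count S (Z.filter (fun z => z % 2 = 1)) (by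
    intro z hz
    rw [Finset.mem_filter] at hz
    exact good_of hZ h0 hS hz.1 hz.2)
  omega

omit hZ in
theorem up (y : ℤ) (t : ℕ) : 2 ^ t * ((T^[t] y).natAbs + 1) ≤ 3 ^ t * (y.natAbs + 1) := by
  induction t with
  | zero => simp
  | succ t ih =>
    rw [Function.iterate_succ_apply']
    have h1 : 2 * ((T (T^[t] y)).natAbs + 1) ≤ 3 * ((T^[t] y).natAbs + 1) := by
      rcases two_cases (T^[t] y) with he | ho
      · have := T_even he; omega
      · have := T_odd ho; omega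
    calc 2 ^ (t + 1) * ((T (T^[t] y)).natAbs + 1) = 2 ^ t * (2 * ((T (T^[t] y)).natAbs + 1)) := by ring
      _ ≤ 2 ^ t * (3 * ((T^[t] y).natAbs + 1)) := Nat.mul_le_mul_left _ h1
      _ = 3 * (2 ^ t * ((T^[t] y).natAbs + 1)) := by ring
      _ ≤ 3 * (3 ^ t * (y.natAbs + 1)) := Nat.mul_le_mul_left _ ih
      _ = 3 ^ (t + 1) * (y.natAbs + 1) := by ring

theorem height {S : Finset ℕ} (h0 : (0 : ℤ) ∉ Z)
    (hS : ∀ z ∈ Z, ∀ q : ℕ, q.Prime → 5 ≤ q → (q : ℤ) ∣ z → q ∈ S) {L : ℕ}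
    (hL : 3 ^ S.card < 2 ^ L) : ∀ z ∈ Z, z.natAbs < 3 ^ (L * (L + 3) / 2) := by
  by_contra hcon
  push Not at hcon
  obtain ⟨z0, hz0, hbig0⟩ := hcon
  obtain ⟨z, hz, hmax⟩ := Finset.exists_max_image Z Int.natAbs ⟨z0, hz0⟩
  have hbig : 3 ^ (L * (L + 3) / 2) ≤ z.natAbs := hbig0.trans (hmax z0 hz0)
  set m := L * (L + 1) / 2 with hm
  have hmL : L * (L + 3) / 2 = m + L := by
    have : L * (L + 3) = L * (L + 1) + L * 2 := by ring
    rw [this, Nat.add_mul_div_right _ _ (by norm_num)]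
  rw [hmL] at hbig
  have hL1 : 1 ≤ L := by
    rcases Nat.eq_zero_or_pos L with h | h
    · rw [h, pow_zero] at hL
      have : 0 < 3 ^ S.card := by positivity
      omega
    · exact h
  obtain ⟨y, hy, hyz⟩ := pred hZ hz L
  set M := z.natAbs with hM
  have hMle : ∀ w ∈ Z, w.natAbs ≤ M := hmax
  -- all terms of the window are large
  have hlarge : ∀ t ≤ L, 3 ^ m < (T^[t] y).natAbs := by
    intro t ht
    have h1 := up (T^[t] y) (L - t)
    rw [← Function.iterate_add_apply, Nat.sub_add_cancel ht, hyz] at h1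
    have h2 : 2 ^ L * (M + 1) ≤ 3 ^ L * ((T^[t] y).natAbs + 1) := by
      calc 2 ^ L * (M + 1) = 2 ^ t * (2 ^ (L - t) * (M + 1)) := by
            rw [← mul_assoc, ← pow_add, Nat.add_sub_cancel' ht]
        _ ≤ 3 ^ t * (3 ^ (L - t) * ((T^[t] y).natAbs + 1)) :=
            Nat.mul_le_mul (Nat.pow_le_pow_left (by norm_num) t) h1
        _ = 3 ^ L * ((T^[t] y).natAbs + 1) := by
            rw [← mul_assoc, ← pow_add, Nat.add_sub_cancel' ht]
    have h3 : 2 ^ L * 3 ^ m < (T^[t] y).natAbs + 1 := by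
      by_contra hc
      push Not at hc
      have h4 : 3 ^ L * ((T^[t] y).natAbs + 1) ≤ 3 ^ L * (2 ^ L * 3 ^ m) := Nat.mul_le_mul_left _ hc
      have h5 : 3 ^ L * (2 ^ L * 3 ^ m) = 2 ^ L * 3 ^ (m + L) := by rw [pow_add]; ring
      have h6 : 2 ^ L * 3 ^ (m + L) < 2 ^ L * (M + 1) :=
        Nat.mul_lt_mul_of_pos_left (by omega) (by positivity)
      omega
    have h4 : 2 * 3 ^ m ≤ 2 ^ L * 3 ^ m := by
      apply Nat.mul_le_mul_right
      calc 2 = 2 ^ 1 := by norm_num
        _ ≤ 2 ^ L := Nat.pow_le_pow_right (by norm_num) hL1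
    have h5 : 0 < 3 ^ m := by positivity
    omega
  -- the number of odd terms
  have hk : (2 : ℤ) ^ L ≤ 3 ^ (oddT y L).card := by
    obtain ⟨b, h1, h2, h3, _⟩ := form y L
    rw [hyz] at h1
    by_contra hc
    push Not at hc
    have hc' : (3 : ℤ) ^ (oddT y L).card + 1 ≤ 2 ^ L := hc
    have hyM : (y.natAbs : ℤ) ≤ M := by exact_mod_cast hMle y hy
    have hMbig : (3 : ℤ) ^ L ≤ M := by
      have : 3 ^ L ≤ M := le_trans (Nat.pow_le_pow_right (by norm_num) (by omega)) hbig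
      exact_mod_cast this
    have h5 : (2 : ℤ) ^ L * M = |(2 : ℤ) ^ L * z| := by
      rw [abs_mul, abs_of_pos (by positivity), hM, Int.natCast_natAbs]
    have h6 : |(2 : ℤ) ^ L * z| ≤ 3 ^ (oddT y L).card * M + b := by
      rw [h1]
      calc |(3 : ℤ) ^ (oddT y L).card * y + b| ≤ |(3 : ℤ) ^ (oddT y L).card * y| + |b| := abs_add_le _ _
        _ = 3 ^ (oddT y L).card * |y| + b := by
            rw [abs_mul, abs_of_pos (by positivity), abs_of_nonneg h2]
        _ ≤ 3 ^ (oddT y L).card * M + b := by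
            rw [Int.natCast_natAbs] at hyM
            gcongr
    have h7 : (3 ^ (oddT y L).card + 1) * (M : ℤ) ≤ 2 ^ L * M := by
      apply mul_le_mul_of_nonneg_right hc'
      positivity
    have h8 : (0 : ℤ) < 2 ^ L := by positivity
    nlinarith
  -- distinct primes
  obtain ⟨f, hf1, hf2⟩ := window y L (fun t ht _ => hlarge t ht)
  have hcard : (oddT y L).card ≤ S.card := by
    apply Finset.card_le_card_of_injOn f
    · intro t ht
      rw [Finset.mem_coe] at ht
      unfold oddT at ht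
      rw [Finset.mem_filter, Finset.mem_range] at ht
      have h1 := hf1 t ht.1.le ht.2
      have hmem := closed_it hZ hy t
      have hq5 : 5 ≤ f t := by
        have h3 := no3 hZ h0 hmem
        have hp := h1.1
        have hd := h1.2
        by_contra hlt
        push Not at hlt
        have h2 := hp.two_le
        interval_cases hft : f t
        · have : T^[t] y % 2 = 0 := Int.emod_eq_zero_of_dvd (by exact_mod_cast hd)
          omega
        · exact h3 (Int.emod_eq_zero_of_dvd (by exact_mod_cast hd))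
        · exact absurd hp (by decide)
      exact hS _ hmem _ h1.1 hq5 h1.2
    · intro s hs t ht hst
      rw [Finset.mem_coe] at hs ht
      unfold oddT at hs ht
      rw [Finset.mem_filter, Finset.mem_range] at hs ht
      exact hf2 s hs.1.le t ht.1.le hs.2 ht.2 hst
  have h9 : (2 : ℕ) ^ L ≤ 3 ^ (oddT y L).card := by exact_mod_cast hk
  have h10 : 3 ^ (oddT y L).card ≤ 3 ^ S.card := Nat.pow_le_pow_right (by norm_num) hcard
  omega

theorem periodic_le {x : ℤ} (hx : x ∈ Z) : ∃ p, 1 ≤ p ∧ p ≤ Z.card ∧ T^[p] x = x := by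
  obtain ⟨i, hi, j, hj, hij, he⟩ := Finset.exists_ne_map_eq_of_card_lt_of_maps_to
    (s := Finset.range (Z.card + 1)) (t := Z) (by rw [Finset.card_range]; omega)
    (f := fun i => T^[i] x) (fun i _ => closed_it hZ hx i)
  rw [Finset.mem_range] at hi hj
  have key : ∀ i j : ℕ, i < j → j ≤ Z.card → T^[i] x = T^[j] x →
      ∃ p, 1 ≤ p ∧ p ≤ Z.card ∧ T^[p] x = x := by
    intro i j hij hj he
    refine ⟨j - i, by omega, by omega, ?_⟩
    have hinj : ∀ n : ℕ, ∀ a ∈ Z, ∀ b ∈ Z, T^[n] a = T^[n] b → a = b := by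
      intro n
      induction n with
      | zero => intro a _ b _ h; exact h
      | succ n ih =>
        intro a ha b hb h
        rw [Function.iterate_succ_apply, Function.iterate_succ_apply] at h
        exact inj_T hZ ha hb (ih _ (closed_T hZ ha) _ (closed_T hZ hb) h)
    apply hinj i _ (closed_it hZ hx _) _ hx
    rw [← Function.iterate_add_apply, Nat.add_sub_cancel' hij.le, he]
  rcases Nat.lt_or_gt_of_ne hij with h | h
  · exact key i j h (by omega) he
  · exact key j i h (by omega) he.symm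

theorem small_known {S : Finset ℕ} (h0 : (0 : ℤ) ∉ Z)
    (hS : ∀ z ∈ Z, ∀ q : ℕ, q.Prime → 5 ≤ q → (q : ℤ) ∣ z → q ∈ S) (h5 : S.card ≤ 5) :
    ∀ z ∈ Z, z ∈ Pool.Agent.Y780.Cz.Known := by
  intro z hz
  by_contra hun
  obtain ⟨p, hp1, hp2, hp⟩ := periodic_le hZ hz
  have h1 := Pool.Agent.R343.LZ.unknown_long hp1 (x := z) (by exact hp) hun
  have h2 := union_card hZ h0 hS
  have h3 : 3 ^ S.card ≤ 3 ^ 5 := Nat.pow_le_pow_right (by norm_num) h5
  norm_num at h3
  omega

end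

theorem cycle_image {Z : Finset ℤ} (hZ : Pool.Agent.H547R3.IsCycle Z) : Z.image T = Z := by
  have hsub : Z.image T ⊆ Z := by
    intro z hz
    rw [Finset.mem_image] at hz
    obtain ⟨w, hw, rfl⟩ := hz
    exact hZ.closed hw 1
  apply Finset.Subset.antisymm hsub
  intro z hz
  obtain ⟨p, hp1, hp⟩ : ∃ p, 1 ≤ p ∧ T^[p] z = z := by
    obtain ⟨p, hp0, hp⟩ := hZ.periodic hz
    exact ⟨p, hp0, hp⟩
  obtain ⟨p, rfl⟩ := Nat.exists_eq_add_of_le' hp1
  rw [Function.iterate_succ_apply'] at hp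
  exact Finset.mem_image.2 ⟨_, hZ.closed hz p, hp⟩

end Pool.Agent.H977.CP
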