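import Mathlib
import Pool.Agent.H977.CP.Count
import Pool.Agent.H977.CP.Windows

set_option autoImplicit false

/-!
The maps `T_{a,b}`, `a ≥ 3` odd, `b = 1` or `b = -1`: cycles with few prime divisors.
-/

namespace Pool.Agent.H977.CPG

open Pool.Agent.Helper601.HK Finset
open Pool.Agent.H977.CP (fund_eq hall sum_dist)

/-- odd, prime to `a`, and `x (a x + b)` has no odd prime divisors outside of `S` -/
def Good (a : ℕ) (b : ℤ) (S : Finset ℕ) (x : ℤ) : Prop :=
  x % 2 = 1 ∧ (∀ r : ℕ, r.Prime → r ∣ a → ¬ (r : ℤ) ∣ x) ∧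
    ∀ q : ℕ, q.Prime → q ≠ 2 → (q : ℤ) ∣ x * (a * x + b) → q ∈ S

/-- the odd prime divisors of `x (a x + b)` -/
def PP (a : ℕ) (b : ℤ) (x : ℤ) : Finset ℕ := (x * (a * x + b)).natAbs.primeFactors.erase 2

/-- the relation of a good number to the parameter of the Pell equation -/
def Rel (a : ℕ) (b x : ℤ) (D : ℕ) : Prop :=
  ∃ y : ℕ, (2 * a * x + b).natAbs ^ 2 = D * y ^ 2 + 1 ∧ 0 < y ∧ ∀ p, p.Prime → p ∣ y → p ∣ D

theorem rel_inj {a : ℕ} (ha : 3 ≤ a) {b x x' : ℤ} (hb : b = 1 ∨ b = -1) {D : ℕ}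
    (h : Rel a b x D) (h' : Rel a b x' D) : x = x' := by
  obtain ⟨B, hB⟩ := fund_eq D
  obtain ⟨y, h1, h2, h3⟩ := h
  obtain ⟨y', h1', h2', h3'⟩ := h'
  have e1 := hB _ y h1 h2 h3
  have e2 := hB _ y' h1' h2' h3'
  have e3 : (2 * a * x + b).natAbs = (2 * a * x' + b).natAbs := e1.trans e2.symm
  have ha' : (3 : ℤ) ≤ a := by exact_mod_cast ha
  rcases Int.natAbs_eq_natAbs_iff.1 e3 with h | h
  · have : (2 * a : ℤ) * (x - x') = 0 := by linear_combination h
    rcases mul_eq_zero.1 this with h0 | h0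
    · omega
    · linarith
  · exfalso
    have h0 : (a : ℤ) * (x + x') = -b := by linarith
    have h1 : (a : ℤ) ∣ b := ⟨-(x + x'), by linear_combination h0⟩
    have h2 : (a : ℤ) ∣ 1 := by
      rcases hb with rfl | rfl
      · exact h1
      · simpa using h1
    have := Int.le_of_dvd one_pos h2
    omega

/-- the parameter, with its factorisation described by the prime divisors -/
theorem good_data {a : ℕ} (ha : 3 ≤ a) (hao : a % 2 = 1) {b : ℤ} (hb : b = 1 ∨ b = -1)
    {S : Finset ℕ} {x : ℤ} (hx : Good a b S x) :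
    ∃ D : ℕ, 0 < D ∧ Rel a b x D ∧
      (D.factorization 2 = 1 ∨ D.factorization 2 = 2) ∧
      (∀ r : ℕ, r.Prime → r ∣ a → D.factorization r = 2 - a.factorization r % 2) ∧
      (∀ r : ℕ, r.Prime → r ≠ 2 → ¬ r ∣ a →
        (r ∈ PP a b x → D.factorization r = 1 ∨ D.factorization r = 2) ∧
        (r ∉ PP a b x → D.factorization r = 0)) := by
  obtain ⟨ho, hc, hq⟩ := hx
  have ha' : (3 : ℤ) ≤ a := by exact_mod_cast ha
  have hpos : 0 < x * (a * x + b) := by
    rcases lt_or_ge x 0 with h | h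
    · apply mul_pos_of_neg_of_neg h
      rcases hb with rfl | rfl <;> nlinarith
    · have : 1 ≤ x := by omega
      apply mul_pos (by omega)
      rcases hb with rfl | rfl <;> nlinarith
  have hb2 : b ^ 2 = 1 := by rcases hb with rfl | rfl <;> norm_num
  obtain ⟨n, hn⟩ := Int.eq_ofNat_of_zero_le hpos.le
  have hn0 : 0 < n := by rw [hn] at hpos; exact_mod_cast hpos
  have hnn : (x * (a * x + b)).natAbs = n := by rw [hn]; simp
  have hsq : (2 * a * x + b).natAbs ^ 2 = 4 * a * n + 1 := by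
    have : (((2 * a * x + b).natAbs ^ 2 : ℕ) : ℤ) = ((4 * a * n + 1 : ℕ) : ℤ) := by
      push_cast
      rw [sq_abs, ← hn]
      linear_combination hb2
    exact_mod_cast this
  have h4an : 0 < 4 * a * n := by positivity
  obtain ⟨D, y, e1, e2, e3, e4, e5⟩ := decomp (4 * a * n) 1 h4an one_pos (by
    intro p hp h
    exact absurd (Nat.dvd_one.1 h) hp.one_lt.ne')
  rw [one_pow, mul_one] at e1
  -- valuations
  have hval : ∀ r : ℕ, r.Prime → D.factorization r + 2 * y.factorization r =
      (4 * a * n).factorization r := by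
    intro r hr
    rw [← e1, Nat.factorization_mul e2.ne' (pow_ne_zero _ e3.ne'), Nat.factorization_pow]
    simp
  have hlt : ∀ r : ℕ, r.Prime → D.factorization r ≤ 2 := by
    intro r hr
    by_contra h
    push Not at h
    exact e5 r hr ((hr.pow_dvd_iff_le_factorization e2.ne').2 h)
  have hyD : ∀ r : ℕ, r.Prime → D.factorization r = 0 → y.factorization r = 0 := by
    intro r hr h
    by_contra h1
    have h2 : r ∣ y := (hr.dvd_iff_one_le_factorization e3.ne').2 (by omega)
    have h3 := (hr.dvd_iff_one_le_factorization e2.ne').1 (e4 r hr h2)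
    omega
  have ha0 : a ≠ 0 := by omega
  have hfac : ∀ r : ℕ, (4 * a * n).factorization r =
      (4 : ℕ).factorization r + a.factorization r + n.factorization r := by
    intro r
    rw [Nat.factorization_mul (by positivity) hn0.ne', Nat.factorization_mul (by norm_num) ha0]
    rfl
  have h4 : ∀ r : ℕ, r.Prime → r ≠ 2 → (4 : ℕ).factorization r = 0 := by
    intro r hr hr2
    apply Nat.factorization_eq_zero_of_not_dvd
    intro h
    have h' : r ∣ 2 ^ 2 := by simpa using h
    exact hr2 ((Nat.prime_dvd_prime_iff_eq hr Nat.prime_two).1 (hr.dvd_of_dvd_pow h'))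
  have hcop : ∀ r : ℕ, r.Prime → r ∣ a → ¬ r ∣ n := by
    intro r hr hra hrn
    have h1 : (r : ℤ) ∣ x * (a * x + b) := by rw [hn]; exact_mod_cast hrn
    rcases (Nat.prime_iff_prime_int.1 hr).dvd_mul.1 h1 with h2 | h2
    · exact hc r hr hra h2
    · have h3 : (r : ℤ) ∣ a := by exact_mod_cast hra
      have h4 : (r : ℤ) ∣ b := (dvd_add_right (Dvd.dvd.mul_right h3 x)).1 h2
      have h5 : (r : ℤ) ∣ 1 := by
        rcases hb with rfl | rfl
        · exact h4
        · simpa using h4
      have := Int.le_of_dvd one_pos h5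
      have := hr.two_le
      omega
  refine ⟨D, e2, ⟨y, by rw [e1, hsq], e3, e4⟩, ?_, ?_, ?_⟩
  · have h1 := hval 2 Nat.prime_two
    have h2 := hlt 2 Nat.prime_two
    by_contra hcon
    have h3 : D.factorization 2 = 0 := by omega
    have h5 := hyD 2 Nat.prime_two h3
    have h6 : 1 ≤ (4 * a * n).factorization 2 :=
      (Nat.prime_two.dvd_iff_one_le_factorization h4an.ne').1 ⟨2 * a * n, by ring⟩
    omega
  · intro r hr hra
    have h1 := hval r hr
    have h2 := hlt r hr
    have hr2 : r ≠ 2 := by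
      rintro rfl
      omega
    have hn' : n.factorization r = 0 := Nat.factorization_eq_zero_of_not_dvd (hcop r hr hra)
    rw [hfac, h4 r hr hr2, hn', zero_add, add_zero] at h1
    have h3 : 1 ≤ a.factorization r := (hr.dvd_iff_one_le_factorization ha0).1 hra
    have h5 : D.factorization r ≠ 0 := by
      intro h
      have := hyD r hr h
      omega
    omega
  · intro r hr hr2 hra
    have h1 := hval r hr
    have h2 := hlt r hr
    have ha'' : a.factorization r = 0 := Nat.factorization_eq_zero_of_not_dvd hra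
    rw [hfac, h4 r hr hr2, ha'', zero_add, zero_add] at h1
    have hmem : r ∈ PP a b x ↔ r ∣ n := by
      unfold PP
      rw [Finset.mem_erase, Nat.mem_primeFactors, hnn]
      exact ⟨fun h => h.2.2.1, fun h => ⟨hr2, hr, h, hn0.ne'⟩⟩
    constructor
    · intro h
      have h3 := (hr.dvd_iff_one_le_factorization hn0.ne').1 (hmem.1 h)
      by_contra hcon
      have h5 : D.factorization r = 0 := by omega
      have := hyD r hr h5
      omega
    · intro h
      have h3 : n.factorization r = 0 :=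
        Nat.factorization_eq_zero_of_not_dvd (fun h' => h (hmem.2 h'))
      omega

theorem PP_sub {a : ℕ} {b : ℤ} {S : Finset ℕ} {x : ℤ} (hx : Good a b S x) : PP a b x ⊆ S := by
  intro q hq
  unfold PP at hq
  rw [Finset.mem_erase, Nat.mem_primeFactors] at hq
  apply hx.2.2 q hq.2.1 hq.1
  rw [Int.natCast_dvd]
  exact hq.2.2.1

/-- numbers with `k` odd prime divisors of `x (a x + b)` -/
theorem count_k {a : ℕ} (ha : 3 ≤ a) (hao : a % 2 = 1) {b : ℤ} (hb : b = 1 ∨ b = -1)
    (S : Finset ℕ) (k : ℕ) (F : Finset ℤ) (hF : ∀ x ∈ F, Good a b S x ∧ (PP a b x).card = k) :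
    F.card ≤ S.card.choose k * 2 ^ (k + 1) := by
  classical
  have h2 : ∀ x : ℤ, ∃ D : ℕ, x ∈ F → (0 < D ∧ Rel a b x D ∧
      (D.factorization 2 = 1 ∨ D.factorization 2 = 2) ∧
      (∀ r : ℕ, r.Prime → r ∣ a → D.factorization r = 2 - a.factorization r % 2) ∧
      (∀ r : ℕ, r.Prime → r ≠ 2 → ¬ r ∣ a →
        (r ∈ PP a b x → D.factorization r = 1 ∨ D.factorization r = 2) ∧
        (r ∉ PP a b x → D.factorization r = 0))) := by
    intro x
    by_cases hx : x ∈ F
    · obtain ⟨D, hD⟩ := good_data ha hao hb (hF x hx).1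
      exact ⟨D, fun _ => hD⟩
    · exact ⟨0, fun h => absurd h hx⟩
  choose D hD using h2
  set code : ℤ → Σ _ : Finset ℕ, Finset ℕ := fun x =>
    ⟨PP a b x, (insert 2 (PP a b x)).filter (fun r => (D x).factorization r = 2)⟩ with hcode
  set target : Finset (Σ _ : Finset ℕ, Finset ℕ) :=
    (S.powersetCard k).sigma (fun P => (insert 2 P).powerset) with htarget
  have hcard : target.card ≤ S.card.choose k * 2 ^ (k + 1) := by
    rw [htarget, Finset.card_sigma]
    have : ∀ P ∈ S.powersetCard k, (insert 2 P).powerset.card ≤ 2 ^ (k + 1) := by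
      intro P hP
      rw [Finset.card_powerset]
      apply Nat.pow_le_pow_right (by norm_num)
      have := Finset.card_insert_le 2 P
      rw [(Finset.mem_powersetCard.1 hP).2] at this
      exact this
    refine (Finset.sum_le_card_nsmul _ _ _ this).trans ?_
    rw [Finset.card_powersetCard, smul_eq_mul]
  refine le_trans ?_ hcard
  apply Finset.card_le_card_of_injOn code
  · intro x hx
    rw [Finset.mem_coe] at hx ⊢
    rw [htarget, Finset.mem_sigma]
    refine ⟨?_, ?_⟩
    · rw [Finset.mem_powersetCard]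
      exact ⟨PP_sub (hF x hx).1, (hF x hx).2⟩
    · rw [Finset.mem_powerset]
      exact Finset.filter_subset _ _
  · intro x hx x' hx' h
    rw [Finset.mem_coe] at hx hx'
    obtain ⟨d1, d2, d3, d4, d5⟩ := hD x hx
    obtain ⟨d1', d2', d3', d4', d5'⟩ := hD x' hx'
    rw [hcode] at h
    simp only [Sigma.mk.injEq, heq_eq_eq] at h
    obtain ⟨hP, hQ⟩ := h
    rw [← hP] at hQ
    have hQ' : ∀ r ∈ insert 2 (PP a b x),
        (D x).factorization r = 2 ↔ (D x').factorization r = 2 := by
      intro r hr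
      have := congrArg (fun s => r ∈ s) hQ
      simp only [Finset.mem_filter, hr, true_and, eq_iff_iff] at this
      exact this
    have hDD : D x = D x' := by
      apply Nat.eq_of_factorization_eq d1.ne' d1'.ne'
      intro r
      by_cases hr : r.Prime
      · by_cases hr2 : r = 2
        · subst hr2
          have := hQ' 2 (Finset.mem_insert_self _ _)
          rcases d3 with h1 | h1 <;> rcases d3' with h2 | h2 <;> omega
        · by_cases hra : r ∣ a
          · rw [d4 r hr hra, d4' r hr hra]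
          · by_cases hrP : r ∈ PP a b x
            · have h1 := (d5 r hr hr2 hra).1 hrP
              have h2 := (d5' r hr hr2 hra).1 (hP ▸ hrP)
              have := hQ' r (Finset.mem_insert_of_mem hrP)
              rcases h1 with h1 | h1 <;> rcases h2 with h2 | h2 <;> omega
            · rw [(d5 r hr hr2 hra).2 hrP, (d5' r hr hr2 hra).2 (hP ▸ hrP)]
      · rw [Nat.factorization_eq_zero_of_not_prime _ hr, Nat.factorization_eq_zero_of_not_prime _ hr]
    rw [← hDD] at d2'
    exact rel_inj ha hb d2 d2'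

theorem count_all {a : ℕ} (ha : 3 ≤ a) (hao : a % 2 = 1) {b : ℤ} (hb : b = 1 ∨ b = -1)
    (S : Finset ℕ) (F : Finset ℤ) (hF : ∀ x ∈ F, Good a b S x) : F.card ≤ 2 * 3 ^ S.card := by
  classical
  have h1 : F.card = ∑ k ∈ range (S.card + 1), (F.filter (fun x => (PP a b x).card = k)).card := by
    apply Finset.card_eq_sum_card_fiberwise
    intro x hx
    rw [Finset.mem_coe, Finset.mem_range]
    have := Finset.card_le_card (PP_sub (hF x hx))
    show (PP a b x).card < S.card + 1
    omega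
  rw [h1]
  have h2 : ∀ k ∈ range (S.card + 1), (F.filter (fun x => (PP a b x).card = k)).card ≤
      S.card.choose k * 2 ^ (k + 1) := by
    intro k _
    apply count_k ha hao hb
    intro x hx
    rw [Finset.mem_filter] at hx
    exact ⟨hF x hx.1, hx.2⟩
  refine (Finset.sum_le_sum h2).trans (le_of_eq ?_)
  have h3 : (3 : ℕ) ^ S.card = ∑ k ∈ range (S.card + 1), 2 ^ k * S.card.choose k := by
    have := add_pow (2 : ℕ) 1 S.card
    norm_num at this
    exact this
  rw [h3, Finset.mul_sum]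
  apply Finset.sum_congr rfl
  intro k _
  rw [pow_succ]; ring

/-! ### the maps -/

/-- the map `T_{a,b}` on the integers -/
def T (a b x : ℤ) : ℤ := if x % 2 = 0 then x / 2 else (a * x + b) / 2

variable {a : ℕ} {b : ℤ}

theorem two_cases (x : ℤ) : x % 2 = 0 ∨ x % 2 = 1 := Int.emod_two_eq_zero_or_one x

theorem T_even {x : ℤ} (h : x % 2 = 0) : 2 * T a b x = x := by
  unfold T; rw [if_pos h]; omega

theorem T_odd (hao : a % 2 = 1) (hb : b = 1 ∨ b = -1) {x : ℤ} (h : x % 2 = 1) :
    2 * T a b x = a * x + b := by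
  unfold T; rw [if_neg (by omega)]
  have h4 : ((a : ℤ) * x + b) % 2 = 0 := by
    rw [Int.add_emod, Int.mul_emod, h, show ((a : ℤ) % 2) = 1 by omega]
    rcases hb with rfl | rfl <;> norm_num
  omega

/-- the times `< n` at which the trajectory is odd -/
def oddT (a : ℕ) (b x : ℤ) (n : ℕ) : Finset ℕ :=
  (range n).filter (fun i => (T a b)^[i] x % 2 = 1)

theorem oddT_succ (x : ℤ) (n : ℕ) : oddT a b x (n + 1) =
    if (T a b)^[n] x % 2 = 1 then insert n (oddT a b x n) else oddT a b x n := by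
  unfold oddT
  rw [Finset.range_add_one, Finset.filter_insert]

theorem form (ha : 3 ≤ a) (hao : a % 2 = 1) (hb : b = 1 ∨ b = -1) (y : ℤ) (n : ℕ) : ∃ c : ℤ,
    2 ^ n * (T a b)^[n] y = a ^ (oddT a b y n).card * y + b * c ∧ 0 ≤ c ∧ c ≤ a ^ n - 2 ^ n ∧
      (y % 2 = 1 → 1 ≤ n → 1 ≤ c) := by
  have ha' : (3 : ℤ) ≤ a := by exact_mod_cast ha
  induction n with
  | zero => exact ⟨0, by simp [oddT], le_rfl, by norm_num, fun _ h => absurd h (by norm_num)⟩
  | succ n ih =>
    obtain ⟨c, h1, h2, h3, h4⟩ := ih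
    have hp2 : (0 : ℤ) < 2 ^ n := by positivity
    have hp3 : (0 : ℤ) < (a : ℤ) ^ n := by positivity
    have hp4 : (2 : ℤ) ^ n ≤ (a : ℤ) ^ n := pow_le_pow_left₀ (by norm_num) (by linarith) n
    rw [Function.iterate_succ_apply']
    have hnot : n ∉ oddT a b y n := by
      unfold oddT; rw [Finset.mem_filter, Finset.mem_range]; omega
    rcases two_cases ((T a b)^[n] y) with he | ho
    · refine ⟨c, ?_, h2, ?_, ?_⟩
      · rw [oddT_succ, if_neg (by omega), ← h1, pow_succ]
        have := T_even (a := a) (b := b) he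
        linear_combination (2 : ℤ) ^ n * this
      · rw [pow_succ, pow_succ]; nlinarith
      · intro hy _
        rcases Nat.eq_zero_or_pos n with h0 | h0
        · subst h0
          simp only [Function.iterate_zero, id] at he
          omega
        · exact h4 hy h0
    · refine ⟨a * c + 2 ^ n, ?_, by positivity, ?_, ?_⟩
      · rw [oddT_succ, if_pos ho, Finset.card_insert_of_notMem hnot, pow_succ, pow_succ]
        have := T_odd hao hb ho
        linear_combination (2 : ℤ) ^ n * this + (a : ℤ) * h1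
      · rw [pow_succ, pow_succ]; nlinarith
      · intro _ _
        nlinarith

theorem gcd_le (ha : 3 ≤ a) (hao : a % 2 = 1) (hb : b = 1 ∨ b = -1) {y : ℤ} (hy : y % 2 = 1)
    {n : ℕ} (hn : 1 ≤ n) : Nat.gcd y.natAbs ((T a b)^[n] y).natAbs ≤ a ^ n := by
  obtain ⟨c, h1, h2, h3, h4⟩ := form ha hao hb y n
  have hc := h4 hy hn
  set g := Nat.gcd y.natAbs ((T a b)^[n] y).natAbs with hg
  have d1 : (g : ℤ) ∣ y := by
    rw [Int.natCast_dvd]; exact Nat.gcd_dvd_left _ _
  have d2 : (g : ℤ) ∣ (T a b)^[n] y := by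
    rw [Int.natCast_dvd]; exact Nat.gcd_dvd_right _ _
  have d3 : (g : ℤ) ∣ c := by
    have h5 : (g : ℤ) ∣ b * c := by
      have : b * c = 2 ^ n * (T a b)^[n] y - a ^ (oddT a b y n).card * y := by linarith
      rw [this]
      exact dvd_sub (Dvd.dvd.mul_left d2 _) (Dvd.dvd.mul_left d1 _)
    rcases hb with rfl | rfl
    · simpa using h5
    · simpa using h5
  have h5 : (g : ℤ) ≤ c := Int.le_of_dvd (by linarith) d3
  have h6 : (0 : ℤ) < 2 ^ n := by positivity
  have h7 : (g : ℤ) ≤ (a : ℤ) ^ n := by linarith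
  exact_mod_cast h7

theorem window (ha : 3 ≤ a) (hao : a % 2 = 1) (hb : b = 1 ∨ b = -1) (x : ℤ) (L : ℕ)
    (h : ∀ t ≤ L, (T a b)^[t] x % 2 = 1 → a ^ (L * (L + 1) / 2) < ((T a b)^[t] x).natAbs) :
    ∃ f : ℕ → ℕ, (∀ t ≤ L, (T a b)^[t] x % 2 = 1 → (f t).Prime ∧ (f t : ℤ) ∣ (T a b)^[t] x) ∧
      ∀ s ≤ L, ∀ t ≤ L, (T a b)^[s] x % 2 = 1 → (T a b)^[t] x % 2 = 1 → f s = f t → s = t := by
  obtain ⟨f, h1, h2⟩ := hall (oddT a b x (L + 1)) (fun t => ((T a b)^[t] x).natAbs)
    (a ^ (L * (L + 1) / 2))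
    (by
      intro t ht
      unfold oddT at ht
      rw [Finset.mem_filter, Finset.mem_range] at ht
      exact h t (by omega) ht.2)
    (by
      intro j hj
      have hgcd : ∀ i ∈ (oddT a b x (L + 1)).erase j,
          Nat.gcd ((T a b)^[i] x).natAbs ((T a b)^[j] x).natAbs ≤ a ^ Nat.dist i j := by
        intro i hi
        rw [Finset.mem_erase] at hi
        obtain ⟨hij, hi⟩ := hi
        unfold oddT at hi hj
        rw [Finset.mem_filter, Finset.mem_range] at hi hj
        rcases Nat.lt_or_gt_of_ne hij with hlt | hlt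
        · obtain ⟨d, rfl⟩ := Nat.exists_eq_add_of_lt hlt
          have e : Nat.dist i (i + d + 1) = d + 1 := by unfold Nat.dist; omega
          rw [e, show i + d + 1 = (d + 1) + i by ring, Function.iterate_add_apply]
          exact gcd_le ha hao hb hi.2 (by omega)
        · obtain ⟨d, rfl⟩ := Nat.exists_eq_add_of_lt hlt
          have e : Nat.dist (j + d + 1) j = d + 1 := by unfold Nat.dist; omega
          rw [e, Nat.gcd_comm, show j + d + 1 = (d + 1) + j by ring, Function.iterate_add_apply]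
          exact gcd_le ha hao hb hj.2 (by omega)
      have hjL : j ≤ L := by
        unfold oddT at hj
        rw [Finset.mem_filter, Finset.mem_range] at hj
        omega
      calc ∏ i ∈ (oddT a b x (L + 1)).erase j,
            Nat.gcd ((T a b)^[i] x).natAbs ((T a b)^[j] x).natAbs
          ≤ ∏ i ∈ (oddT a b x (L + 1)).erase j, a ^ Nat.dist i j :=
            Finset.prod_le_prod' hgcd
        _ = a ^ (∑ i ∈ (oddT a b x (L + 1)).erase j, Nat.dist i j) := by
            rw [Finset.prod_pow_eq_pow_sum]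
        _ ≤ a ^ (L * (L + 1) / 2) := by
            apply Nat.pow_le_pow_right (by omega)
            refine le_trans ?_ (sum_dist j L hjL)
            apply Finset.sum_le_sum_of_subset
            intro i hi
            have := Finset.mem_of_mem_erase hi
            unfold oddT at this
            exact (Finset.mem_filter.1 this).1)
  refine ⟨f, ?_, ?_⟩
  · intro t ht ho
    have := h1 t (by unfold oddT; rw [Finset.mem_filter, Finset.mem_range]; exact ⟨by omega, ho⟩)
    refine ⟨this.1, ?_⟩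
    rw [Int.natCast_dvd]
    exact this.2
  · intro s hs t ht hso hto hst
    apply h2 _ _ hst
    · rw [Finset.mem_coe]; unfold oddT; rw [Finset.mem_filter, Finset.mem_range]; exact ⟨by omega, hso⟩
    · rw [Finset.mem_coe]; unfold oddT; rw [Finset.mem_filter, Finset.mem_range]; exact ⟨by omega, hto⟩

theorem up (ha : 3 ≤ a) (hao : a % 2 = 1) (hb : b = 1 ∨ b = -1) (y : ℤ) (t : ℕ) :
    2 ^ t * (((T a b)^[t] y).natAbs + 1) ≤ a ^ t * (y.natAbs + 1) := by
  induction t with
  | zero => simp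
  | succ t ih =>
    rw [Function.iterate_succ_apply']
    have ha' : (3 : ℤ) ≤ a := by exact_mod_cast ha
    have h1 : 2 * ((T a b ((T a b)^[t] y)).natAbs + 1) ≤ a * (((T a b)^[t] y).natAbs + 1) := by
      rcases two_cases ((T a b)^[t] y) with he | ho
      · have := T_even (a := a) (b := b) he
        have h2 : 3 * (((T a b)^[t] y).natAbs + 1) ≤ a * (((T a b)^[t] y).natAbs + 1) :=
          Nat.mul_le_mul_right _ ha
        omega
      · have h3 := T_odd hao hb ho
        have h4 : 2 * (T a b ((T a b)^[t] y)).natAbs ≤ a * ((T a b)^[t] y).natAbs + 1 := by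
          have h5 : (2 * T a b ((T a b)^[t] y)).natAbs ≤
              (a * (T a b)^[t] y).natAbs + b.natAbs := by
            rw [h3]; exact Int.natAbs_add_le _ _
          rw [Int.natAbs_mul, Int.natAbs_mul, Int.natAbs_natCast] at h5
          have h6 : b.natAbs = 1 := by rcases hb with rfl | rfl <;> rfl
          rw [h6] at h5
          simpa using h5
        have h7 : a * (((T a b)^[t] y).natAbs + 1) = a * ((T a b)^[t] y).natAbs + a := by ring
        omega
    calc 2 ^ (t + 1) * ((T a b ((T a b)^[t] y)).natAbs + 1)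
        = 2 ^ t * (2 * ((T a b ((T a b)^[t] y)).natAbs + 1)) := by ring
      _ ≤ 2 ^ t * (a * (((T a b)^[t] y).natAbs + 1)) := Nat.mul_le_mul_left _ h1
      _ = a * (2 ^ t * (((T a b)^[t] y).natAbs + 1)) := by ring
      _ ≤ a * (a ^ t * (y.natAbs + 1)) := Nat.mul_le_mul_left _ ih
      _ = a ^ (t + 1) * (y.natAbs + 1) := by ring

section
variable {Z : Finset ℤ} (hZ : Z.image (T a b) = Z)

include hZ

theorem closed_T {z : ℤ} (hz : z ∈ Z) : T a b z ∈ Z := by
  rw [← hZ]; exact Finset.mem_image_of_mem _ hz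

theorem closed_it {z : ℤ} (hz : z ∈ Z) (n : ℕ) : (T a b)^[n] z ∈ Z := by
  induction n with
  | zero => exact hz
  | succ n ih => rw [Function.iterate_succ_apply']; exact closed_T hZ ih

theorem inj_T : Set.InjOn (T a b) Z := by
  rw [← Finset.card_image_iff, hZ]

theorem pred {z : ℤ} (hz : z ∈ Z) (n : ℕ) : ∃ y ∈ Z, (T a b)^[n] y = z := by
  induction n with
  | zero => exact ⟨z, hz, rfl⟩
  | succ n ih =>
    obtain ⟨y, hy, hyz⟩ := ih
    rw [← hZ, Finset.mem_image] at hy
    obtain ⟨w, hw, hwy⟩ := hy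
    exact ⟨w, hw, by rw [Function.iterate_succ_apply, hwy, hyz]⟩

theorem nor (hao : a % 2 = 1) (hb : b = 1 ∨ b = -1) (h0 : (0 : ℤ) ∉ Z) {r : ℕ} (hr : r.Prime)
    (hra : r ∣ a) {z : ℤ} (hz : z ∈ Z) : ¬ (r : ℤ) ∣ z := by
  classical
  intro h3
  obtain ⟨m, hm, hmax⟩ := Finset.exists_max_image (Z.filter (fun z => (r : ℤ) ∣ z)) Int.natAbs
    ⟨z, Finset.mem_filter.2 ⟨hz, h3⟩⟩
  rw [Finset.mem_filter] at hm
  obtain ⟨w, hw, hwm⟩ := pred hZ hm.1 1
  rw [Function.iterate_one] at hwm
  have hm0 : m ≠ 0 := fun h => h0 (h ▸ hm.1)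
  rcases two_cases w with he | ho
  · have h1 := T_even (a := a) (b := b) he
    rw [hwm] at h1
    have h2 := hmax w (Finset.mem_filter.2 ⟨hw, by rw [← h1]; exact Dvd.dvd.mul_left hm.2 _⟩)
    omega
  · have h1 := T_odd hao hb ho
    rw [hwm] at h1
    have h2 : (r : ℤ) ∣ a := by exact_mod_cast hra
    have h4 : (r : ℤ) ∣ a * w + b := by rw [← h1]; exact Dvd.dvd.mul_left hm.2 _
    have h5 : (r : ℤ) ∣ b := (dvd_add_right (Dvd.dvd.mul_right h2 w)).1 h4
    have h6 : (r : ℤ) ∣ 1 := by
      rcases hb with rfl | rfl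
      · exact h5
      · simpa using h5
    have := Int.le_of_dvd one_pos h6
    have := hr.two_le
    omega

theorem card_pow_le (ha : 3 ≤ a) (hao : a % 2 = 1) (hb : b = 1 ∨ b = -1) (h0 : (0 : ℤ) ∉ Z) :
    2 ^ Z.card ≤ (a + 1) ^ (Z.filter (fun z => z % 2 = 1)).card := by
  have h1 : ∏ z ∈ Z, (T a b z).natAbs = ∏ z ∈ Z, z.natAbs := by
    conv_rhs => rw [← hZ]
    rw [Finset.prod_image (inj_T hZ)]
  have h2 : ∏ z ∈ Z, ((T a b z).natAbs * 2) ≤
      ∏ z ∈ Z, (z.natAbs * (if z % 2 = 1 then a + 1 else 1)) := by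
    apply Finset.prod_le_prod'
    intro z hz
    have hz0 : z ≠ 0 := fun h => h0 (h ▸ hz)
    by_cases ho : z % 2 = 1
    · rw [if_pos ho]
      have h3 := T_odd hao hb ho
      have h5 : (2 * T a b z).natAbs ≤ (a * z).natAbs + b.natAbs := by
        rw [h3]; exact Int.natAbs_add_le _ _
      rw [Int.natAbs_mul, Int.natAbs_mul, Int.natAbs_natCast] at h5
      have h6 : b.natAbs = 1 := by rcases hb with rfl | rfl <;> rfl
      rw [h6] at h5
      have h7 : 1 ≤ z.natAbs := by omega
      have h8 : (2 : ℤ).natAbs = 2 := rfl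
      rw [h8] at h5
      calc (T a b z).natAbs * 2 = 2 * (T a b z).natAbs := by ring
        _ ≤ a * z.natAbs + 1 := h5
        _ ≤ z.natAbs * (a + 1) := by nlinarith
    · rw [if_neg ho]
      have := T_even (a := a) (b := b) (x := z) (by omega)
      omega
  rw [Finset.prod_mul_distrib, Finset.prod_mul_distrib, h1] at h2
  have h3 : 0 < ∏ z ∈ Z, z.natAbs := by
    apply Finset.prod_pos
    intro z hz
    have hz0 : z ≠ 0 := fun h => h0 (h ▸ hz)
    omega
  have h4 := Nat.le_of_mul_le_mul_left h2 h3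
  rw [Finset.prod_ite] at h4
  simpa using h4

theorem good_of {S : Finset ℕ} (hao : a % 2 = 1) (hb : b = 1 ∨ b = -1) (h0 : (0 : ℤ) ∉ Z)
    (hS : ∀ z ∈ Z, ∀ q : ℕ, q.Prime → q ≠ 2 → (q : ℤ) ∣ z → q ∈ S) {z : ℤ} (hz : z ∈ Z)
    (ho : z % 2 = 1) : Good a b S z := by
  refine ⟨ho, fun r hr hra => nor hZ hao hb h0 hr hra hz, ?_⟩
  intro q hq h5 hd
  rcases (Nat.prime_iff_prime_int.1 hq).dvd_mul.1 hd with h | h
  · exact hS z hz q hq h5 h
  · rw [← T_odd hao hb ho] at h
    rcases (Nat.prime_iff_prime_int.1 hq).dvd_mul.1 h with h' | h'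
    · exfalso
      have h1 := Int.le_of_dvd (by norm_num) h'
      have := hq.two_le
      omega
    · exact hS _ (closed_T hZ hz) q hq h5 h'

theorem height {S : Finset ℕ} (ha : 3 ≤ a) (hao : a % 2 = 1) (hb : b = 1 ∨ b = -1)
    (h0 : (0 : ℤ) ∉ Z)
    (hS : ∀ z ∈ Z, ∀ q : ℕ, q.Prime → q ≠ 2 → (q : ℤ) ∣ z → q ∈ S) {L : ℕ}
    (hL : a ^ S.card < 2 ^ L) : ∀ z ∈ Z, z.natAbs < a ^ (L * (L + 3) / 2) := by
  have ha' : (3 : ℤ) ≤ a := by exact_mod_cast ha
  by_contra hcon
  push Not at hcon
  obtain ⟨z0, hz0, hbig0⟩ := hcon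
  obtain ⟨z, hz, hmax⟩ := Finset.exists_max_image Z Int.natAbs ⟨z0, hz0⟩
  have hbig : a ^ (L * (L + 3) / 2) ≤ z.natAbs := hbig0.trans (hmax z0 hz0)
  set m := L * (L + 1) / 2 with hm
  have hmL : L * (L + 3) / 2 = m + L := by
    have : L * (L + 3) = L * (L + 1) + L * 2 := by ring
    rw [this, Nat.add_mul_div_right _ _ (by norm_num)]
  rw [hmL] at hbig
  have hL1 : 1 ≤ L := by
    rcases Nat.eq_zero_or_pos L with h | h
    · rw [h, pow_zero] at hL
      have : 0 < a ^ S.card := by positivity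
      omega
    · exact h
  obtain ⟨y, hy, hyz⟩ := pred hZ hz L
  set M := z.natAbs with hM
  have hMle : ∀ w ∈ Z, w.natAbs ≤ M := hmax
  have hlarge : ∀ t ≤ L, a ^ m < ((T a b)^[t] y).natAbs := by
    intro t ht
    have h1 := up ha hao hb ((T a b)^[t] y) (L - t)
    rw [← Function.iterate_add_apply, Nat.sub_add_cancel ht, hyz] at h1
    have h2 : 2 ^ L * (M + 1) ≤ a ^ L * (((T a b)^[t] y).natAbs + 1) := by
      calc 2 ^ L * (M + 1) = 2 ^ t * (2 ^ (L - t) * (M + 1)) := by
            rw [← mul_assoc, ← pow_add, Nat.add_sub_cancel' ht]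
        _ ≤ a ^ t * (a ^ (L - t) * (((T a b)^[t] y).natAbs + 1)) :=
            Nat.mul_le_mul (Nat.pow_le_pow_left (by omega) t) h1
        _ = a ^ L * (((T a b)^[t] y).natAbs + 1) := by
            rw [← mul_assoc, ← pow_add, Nat.add_sub_cancel' ht]
    have h3 : 2 ^ L * a ^ m < ((T a b)^[t] y).natAbs + 1 := by
      by_contra hc
      push Not at hc
      have h4 : a ^ L * (((T a b)^[t] y).natAbs + 1) ≤ a ^ L * (2 ^ L * a ^ m) :=
        Nat.mul_le_mul_left _ hc
      have h5 : a ^ L * (2 ^ L * a ^ m) = 2 ^ L * a ^ (m + L) := by rw [pow_add]; ring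
      have h6 : 2 ^ L * a ^ (m + L) < 2 ^ L * (M + 1) :=
        Nat.mul_lt_mul_of_pos_left (by omega) (by positivity)
      omega
    have h4 : 2 * a ^ m ≤ 2 ^ L * a ^ m := by
      apply Nat.mul_le_mul_right
      calc 2 = 2 ^ 1 := by norm_num
        _ ≤ 2 ^ L := Nat.pow_le_pow_right (by norm_num) hL1
    have h5 : 0 < a ^ m := by positivity
    omega
  have hk : (2 : ℤ) ^ L ≤ (a : ℤ) ^ (oddT a b y L).card := by
    obtain ⟨c, h1, h2, h3, _⟩ := form ha hao hb y L
    rw [hyz] at h1
    by_contra hc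
    push Not at hc
    have hc' : (a : ℤ) ^ (oddT a b y L).card + 1 ≤ 2 ^ L := hc
    have hyM : (y.natAbs : ℤ) ≤ M := by exact_mod_cast hMle y hy
    have hMbig : (a : ℤ) ^ L ≤ M := by
      have : a ^ L ≤ M := le_trans (Nat.pow_le_pow_right (by omega) (by omega)) hbig
      exact_mod_cast this
    have h5 : (2 : ℤ) ^ L * M = |(2 : ℤ) ^ L * z| := by
      rw [abs_mul, abs_of_pos (by positivity), hM, Int.natCast_natAbs]
    have hb1 : |b| = 1 := by rcases hb with rfl | rfl <;> norm_num
    have h6 : |(2 : ℤ) ^ L * z| ≤ (a : ℤ) ^ (oddT a b y L).card * M + c := by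
      rw [h1]
      calc |(a : ℤ) ^ (oddT a b y L).card * y + b * c|
          ≤ |(a : ℤ) ^ (oddT a b y L).card * y| + |b * c| := abs_add_le _ _
        _ = (a : ℤ) ^ (oddT a b y L).card * |y| + c := by
            rw [abs_mul, abs_mul, hb1, one_mul, abs_of_pos (by positivity : (0 : ℤ) < (a : ℤ) ^ _),
              abs_of_nonneg h2]
        _ ≤ (a : ℤ) ^ (oddT a b y L).card * M + c := by
            rw [Int.natCast_natAbs] at hyM
            gcongr
    have h7 : ((a : ℤ) ^ (oddT a b y L).card + 1) * (M : ℤ) ≤ 2 ^ L * M := by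
      apply mul_le_mul_of_nonneg_right hc'
      positivity
    have h8 : (0 : ℤ) < 2 ^ L := by positivity
    nlinarith
  obtain ⟨f, hf1, hf2⟩ := window ha hao hb y L (fun t ht _ => hlarge t ht)
  have hcard : (oddT a b y L).card ≤ S.card := by
    apply Finset.card_le_card_of_injOn f
    · intro t ht
      rw [Finset.mem_coe] at ht
      unfold oddT at ht
      rw [Finset.mem_filter, Finset.mem_range] at ht
      have h1 := hf1 t ht.1.le ht.2
      have hmem := closed_it hZ hy t
      have hq5 : f t ≠ 2 := by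
        intro h2
        have hd := h1.2
        rw [h2] at hd
        have : (T a b)^[t] y % 2 = 0 := Int.emod_eq_zero_of_dvd (by exact_mod_cast hd)
        omega
      exact hS _ hmem _ h1.1 hq5 h1.2
    · intro s hs t ht hst
      rw [Finset.mem_coe] at hs ht
      unfold oddT at hs ht
      rw [Finset.mem_filter, Finset.mem_range] at hs ht
      exact hf2 s hs.1.le t ht.1.le hs.2 ht.2 hst
  have h9 : (2 : ℕ) ^ L ≤ a ^ (oddT a b y L).card := by exact_mod_cast hk
  have h10 : a ^ (oddT a b y L).card ≤ a ^ S.card := Nat.pow_le_pow_right (by omega) hcard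
  omega

end

end Pool.Agent.H977.CPG
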