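import Mathlib
import Pool.Agent.H977.CP.Cycles

set_option autoImplicit false

/-!
Prime divisors of initial pieces of trajectories.
-/

namespace Pool.Agent.H977.CP

open Finset

theorem T_ne_zero {z : ℤ} (h : z ≠ 0) : T z ≠ 0 := by
  rcases two_cases z with he | ho
  · have := T_even he; omega
  · have := T_odd ho; omega

theorem weight (x : ℤ) (n : ℕ) : 2 ^ n * (T^[n] x).natAbs ≤ 2 ^ (2 * (oddT x n).card) * x.natAbs := by
  induction n with
  | zero => simp [oddT]
  | succ n ih =>
    rw [Function.iterate_succ_apply']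
    have hnot : n ∉ oddT x n := by
      unfold oddT; rw [Finset.mem_filter, Finset.mem_range]; omega
    rcases two_cases (T^[n] x) with he | ho
    · rw [oddT_succ, if_neg (by omega)]
      have h1 : 2 * (T (T^[n] x)).natAbs = (T^[n] x).natAbs := by
        have := T_even he; omega
      calc 2 ^ (n + 1) * (T (T^[n] x)).natAbs = 2 ^ n * (2 * (T (T^[n] x)).natAbs) := by ring
        _ = 2 ^ n * (T^[n] x).natAbs := by rw [h1]
        _ ≤ _ := ih
    · rw [oddT_succ, if_pos ho, Finset.card_insert_of_notMem hnot]
      have h1 : (T (T^[n] x)).natAbs ≤ 2 * (T^[n] x).natAbs := by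
        have := T_odd ho; omega
      calc 2 ^ (n + 1) * (T (T^[n] x)).natAbs ≤ 2 ^ (n + 1) * (2 * (T^[n] x).natAbs) :=
            Nat.mul_le_mul_left _ h1
        _ = 4 * (2 ^ n * (T^[n] x).natAbs) := by ring
        _ ≤ 4 * (2 ^ (2 * (oddT x n).card) * x.natAbs) := Nat.mul_le_mul_left _ ih
        _ = 2 ^ (2 * ((oddT x n).card + 1)) * x.natAbs := by ring

theorem no3_after (x : ℤ) {s : ℕ} (hs : T^[s] x % 2 = 1) : ∀ d : ℕ, T^[s + 1 + d] x % 3 ≠ 0 := by
  intro d
  induction d with
  | zero =>
    rw [add_zero, Function.iterate_succ_apply']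
    have := T_odd hs
    omega
  | succ d ih =>
    rw [← add_assoc, Function.iterate_succ_apply']
    rcases two_cases (T^[s + 1 + d] x) with he | ho
    · have := T_even he; omega
    · have := T_odd ho; omega

theorem traj (x : ℤ) (n : ℕ) (S : Finset ℕ) (h0 : x ≠ 0)
    (hinj : Set.InjOn (fun i => T^[i] x) (Set.Iio n))
    (hS : ∀ i < n, ∀ q : ℕ, q.Prime → 5 ≤ q → (q : ℤ) ∣ T^[i] x → q ∈ S) :
    n ≤ 4 * 3 ^ S.card + 4 + Nat.log 2 x.natAbs := by
  classical
  -- the number of odd terms
  have hodd : (oddT x n).card ≤ 2 * 3 ^ S.card + 2 := by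
    rcases (oddT x n).eq_empty_or_nonempty with he | hne
    · rw [he]; simp
    · set s := (oddT x n).min' hne with hs
      have hsm : s ∈ oddT x n := Finset.min'_mem _ _
      have hso : T^[s] x % 2 = 1 := by
        unfold oddT at hsm; exact (Finset.mem_filter.1 hsm).2
      set J := ((oddT x n).erase s).erase (n - 1) with hJ
      have hJc : (oddT x n).card ≤ J.card + 2 := by
        have h1 := Finset.pred_card_le_card_erase (s := oddT x n) (a := s)
        have h2 := Finset.pred_card_le_card_erase (s := (oddT x n).erase s) (a := n - 1)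
        rw [← hJ] at h2
        omega
      have hJm : ∀ t ∈ J, t + 1 < n ∧ s < t ∧ T^[t] x % 2 = 1 := by
        intro t ht
        rw [hJ, Finset.mem_erase, Finset.mem_erase] at ht
        obtain ⟨h1, h2, h3⟩ := ht
        have h4 : s ≤ t := Finset.min'_le _ _ h3
        unfold oddT at h3
        rw [Finset.mem_filter, Finset.mem_range] at h3
        exact ⟨by omega, by omega, h3.2⟩
      have hJinj : Set.InjOn (fun t => T^[t] x) (J : Set ℕ) := by
        intro a ha b hb h
        apply hinj _ _ h
        · have := hJm a ha; show a < n; omega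
        · have := hJm b hb; show b < n; omega
      have h5 := good_count S (J.image (fun t => T^[t] x)) (by
        intro z hz
        rw [Finset.mem_image] at hz
        obtain ⟨t, ht, rfl⟩ := hz
        obtain ⟨h1, h2, h3⟩ := hJm t ht
        refine ⟨h3, ?_, ?_⟩
        · obtain ⟨d, rfl⟩ := Nat.exists_eq_add_of_lt h2
          have := no3_after x hso d
          rwa [show s + 1 + d = s + d + 1 by ring] at this
        · intro q hq hq5 hd
          rcases (Nat.prime_iff_prime_int.1 hq).dvd_mul.1 hd with h | h
          · exact hS t (by omega) q hq hq5 h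
          · rw [← T_odd h3] at h
            rcases (Nat.prime_iff_prime_int.1 hq).dvd_mul.1 h with h' | h'
            · exfalso
              have := Int.le_of_dvd (by norm_num) h'
              omega
            · apply hS (t + 1) h1 q hq hq5
              rw [Function.iterate_succ_apply']
              exact h')
      rw [Finset.card_image_of_injOn hJinj] at h5
      omega
  have hne : ∀ i : ℕ, T^[i] x ≠ 0 := by
    intro i
    induction i with
    | zero => exact h0
    | succ i ih => rw [Function.iterate_succ_apply']; exact T_ne_zero ih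
  have h1 := weight x n
  have h2 : 1 ≤ (T^[n] x).natAbs := by have := hne n; omega
  have h3 : x.natAbs < 2 ^ (Nat.log 2 x.natAbs + 1) := Nat.lt_pow_succ_log_self (by norm_num) _
  have h4 : 2 ^ n < 2 ^ (2 * (oddT x n).card + (Nat.log 2 x.natAbs + 1)) := by
    calc 2 ^ n = 2 ^ n * 1 := by ring
      _ ≤ 2 ^ n * (T^[n] x).natAbs := Nat.mul_le_mul_left _ h2
      _ ≤ 2 ^ (2 * (oddT x n).card) * x.natAbs := h1
      _ < 2 ^ (2 * (oddT x n).card) * 2 ^ (Nat.log 2 x.natAbs + 1) :=
          Nat.mul_lt_mul_of_pos_left h3 (by positivity)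
      _ = _ := by rw [← pow_add]
  have h5 := (Nat.pow_lt_pow_iff_right (by norm_num)).1 h4
  omega

end Pool.Agent.H977.CP
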